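import Mathlib
import Pool.Agent.Helper56_TB.Defs

/-!
# Upward closed sets of reals
-/

set_option autoImplicit false

namespace Pool.Agent.Helper56MB

open Pool.Agent.Helper25TD

/-- the real with initial segment `s`, followed by `x` -/
def cat (s : List Bool) (x : ℕ → Bool) : ℕ → Bool :=
  fun n => if n < s.length then s.getD n false else x (n - s.length)

/-- The set of all `y` such that `s` followed by the `n`-th row of `y` belongs to `B` for all
sufficiently large `n`. -/
def Limit (B : Set (ℕ → Bool)) (s : List Bool) : Set (ℕ → Bool) :=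
  {y | ∃ N, ∀ n ≥ N, cat s (row y n) ∈ B}

/-- the set of (characteristic functions of) sets of measure larger than `r` -/
def Above (μ : Set ℕ → ℝ) (r : ℚ) : Set (ℕ → Bool) := {x | (r : ℝ) < μ {n | x n = true}}

/-- some function dominates all elements of `S` -/
def Bdd (S : Set (ℕ → ℕ)) : Prop := ∃ h : ℕ → ℕ, ∀ g ∈ S, ∃ N, ∀ n ≥ N, g n ≤ h n

/-- The set of all `x` such that for every `g`: if almost all intervals `[n, g n]` contain some
`m` with `x (2 * m) = false`, then there is `k ∈ f g` such that almost all intervals `[n, k n]`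
contain some `m` with `x (2 * m + 1) = true`. -/
def Pairs (f : (ℕ → ℕ) → Set (ℕ → ℕ)) : Set (ℕ → Bool) :=
  {x | ∀ g : ℕ → ℕ, (∃ N, ∀ n ≥ N, ∃ m ≥ n, m ≤ g n ∧ x (2 * m) = false) →
    ∃ k ∈ f g, ∃ N, ∀ n ≥ N, ∃ m ≥ n, m ≤ k n ∧ x (2 * m + 1) = true}

end Pool.Agent.Helper56MB
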