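import Mathlib
import Pool.Agent.Helper56_MB.Defs
import Pool.Agent.Helper56_TB.Filters

/-!
# Finitely additive measures on the set of all subsets of the natural numbers
-/

set_option autoImplicit false

namespace Pool.Agent.Helper56MB

open Pool.Agent.Helper25TD Pool.Agent.Helper56TB Topology

variable {μ : Set ℕ → ℝ}

theorem mu_mono (h0 : ∀ A, 0 ≤ μ A) (hadd : ∀ A B, Disjoint A B → μ (A ∪ B) = μ A + μ B)
    {A B : Set ℕ} (h : A ⊆ B) : μ A ≤ μ B := by
  have h1 := hadd A (B \ A) Set.disjoint_sdiff_right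
  rw [Set.union_diff_cancel h] at h1
  have := h0 (B \ A)
  linarith

theorem mu_finite (h0 : ∀ A, 0 ≤ μ A) (hadd : ∀ A B, Disjoint A B → μ (A ∪ B) = μ A + μ B)
    (hpt : ∀ n, μ {n} = 0) {A : Set ℕ} (h : A.Finite) : μ A = 0 := by
  induction A, h using Set.Finite.induction_on with
  | empty =>
    have h1 := hadd ∅ ∅ (Set.disjoint_empty ∅)
    rw [Set.union_empty] at h1
    linarith
  | @insert a s ha _ ih =>
    have h1 := hadd {a} s (Set.disjoint_singleton_left.2 ha)
    rw [Set.singleton_union, hpt, ih] at h1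
    linarith

theorem hull_above (h0 : ∀ A, 0 ≤ μ A) (hadd : ∀ A B, Disjoint A B → μ (A ∪ B) = μ A + μ B)
    (hpt : ∀ n, μ {n} = 0) (r : ℚ) : Hull (Above μ r) = Above μ r := by
  ext y
  constructor
  · rintro ⟨x, hx, N, hN⟩
    change (r : ℝ) < μ {n | x n = true} at hx
    change (r : ℝ) < μ {n | y n = true}
    have h1 : {n | x n = true} ⊆ {n | n < N ∧ x n = true} ∪ {n | y n = true} := by
      intro n hn
      rcases Nat.lt_or_ge n N with h | h
      · exact Or.inl ⟨h, hn⟩
      · exact Or.inr (hN n h hn)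
    have h2 : ({n | n < N ∧ x n = true} : Set ℕ).Finite :=
      (Set.finite_lt_nat N).subset fun n hn => hn.1
    have h3 := mu_mono h0 hadd h1
    have h4 : μ ({n | n < N ∧ x n = true} ∪ {n | y n = true}) ≤
        μ {n | n < N ∧ x n = true} + μ {n | y n = true} := by
      have h5 := hadd {n | n < N ∧ x n = true} ({n | y n = true} \ {n | n < N ∧ x n = true})
        Set.disjoint_sdiff_right
      rw [Set.union_diff_self] at h5
      rw [h5]
      have := mu_mono h0 hadd (Set.diff_subset (s := {n | y n = true})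
        (t := {n | n < N ∧ x n = true}))
      linarith
    rw [mu_finite h0 hadd hpt h2] at h4
    linarith
  · exact fun hy => ⟨y, hy, 0, fun _ _ h => h⟩

/-- the real that agrees with `u` on the blocks with index congruent to `j` modulo `m` and is
zero elsewhere -/
noncomputable def pat (a : ℕ → ℕ) (u : ℕ → ℕ → Bool) (m j : ℕ) : ℕ → Bool := by
  classical
  exact fun n => decide (∃ i, n ∈ Set.Ico (a i) (a (i + 1)) ∧ i % m = j ∧ u i n = true)

theorem block_unique' {a : ℕ → ℕ} (ha : StrictMono a) {i j n : ℕ}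
    (hi : n ∈ Set.Ico (a i) (a (i + 1))) (hj : n ∈ Set.Ico (a j) (a (j + 1))) : i = j := by
  rw [Set.mem_Ico] at hi hj
  rcases lt_trichotomy i j with h4 | h4 | h4
  · have := ha.monotone (Nat.succ_le_of_lt h4)
    simp only [Nat.succ_eq_add_one] at this
    omega
  · exact h4
  · have := ha.monotone (Nat.succ_le_of_lt h4)
    simp only [Nat.succ_eq_add_one] at this
    omega

theorem pat_match {a : ℕ → ℕ} (ha : StrictMono a) (u : ℕ → ℕ → Bool) {m j i : ℕ}
    (hi : i % m = j) {n : ℕ} (hn : n ∈ Set.Ico (a i) (a (i + 1))) : pat a u m j n = u i n := by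
  classical
  unfold pat
  cases h : u i n with
  | true => exact decide_eq_true ⟨i, hn, hi, h⟩
  | false =>
    refine decide_eq_false ?_
    rintro ⟨k, hk, -, hk'⟩
    rw [block_unique' ha hk hn, h] at hk'
    exact absurd hk' (by simp)

theorem pat_ne {a : ℕ → ℕ} (ha : StrictMono a) (u : ℕ → ℕ → Bool) {m j i : ℕ}
    (hi : i % m ≠ j) {n : ℕ} (hn : n ∈ Set.Ico (a i) (a (i + 1))) : pat a u m j n = false := by
  classical
  unfold pat
  refine decide_eq_false ?_
  rintro ⟨k, hk, hk', -⟩
  rw [block_unique' ha hk hn] at hk'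
  exact hi hk'

theorem pat_disjoint {a : ℕ → ℕ} (ha : StrictMono a) (u : ℕ → ℕ → Bool) {m j k : ℕ}
    (hjk : j ≠ k) : Disjoint {n | pat a u m j n = true} {n | pat a u m k n = true} := by
  classical
  rw [Set.disjoint_left]
  rintro n hn hn'
  simp only [pat, Set.mem_ofPred_eq, decide_eq_true_eq] at hn hn'
  obtain ⟨i, hi, hi', -⟩ := hn
  obtain ⟨i', hi2, hi2', -⟩ := hn'
  rw [block_unique' ha hi hi2, hi2'] at hi'
  exact hjk hi'.symm

/-- If all the games are determined, the measure is not diffuse. -/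
theorem not_determined_measure (h0 : ∀ A, 0 ≤ μ A) (h1 : μ Set.univ = 1)
    (hadd : ∀ A B, Disjoint A B → μ (A ∪ B) = μ A + μ B) (hpt : ∀ n, μ {n} = 0) :
    ∃ r : ℚ, ¬ WinsI (Clocked (Above μ r)) ∧ ¬ WinsII (Clocked (Above μ r)) := by
  classical
  by_contra hcon
  push Not at hcon
  have hdet : ∀ r : ℚ, Above μ r ∈ residual (ℕ → Bool) ∨ IsMeagre (Above μ r) := by
    intro r
    by_cases h : WinsI (Clocked (Above μ r))
    · left
      rwa [winsI_iff, hull_above h0 hadd hpt] at h
    · right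
      have h2 := hcon r h
      rwa [winsII_iff, hull_above h0 hadd hpt] at h2
  have hG : (⋂ r : ℚ, {x | x ∈ Above μ r ↔ Above μ r ∈ residual (ℕ → Bool)}) ∈
      residual (ℕ → Bool) := by
    refine countable_iInter_mem.2 fun r => ?_
    by_cases h : Above μ r ∈ residual (ℕ → Bool)
    · refine Filter.mem_of_superset h fun x hx => ?_
      exact ⟨fun _ => h, fun _ => hx⟩
    · have h2 : (Above μ r)ᶜ ∈ residual (ℕ → Bool) := (hdet r).resolve_left h
      refine Filter.mem_of_superset h2 fun x hx => ?_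
      exact ⟨fun h3 => absurd h3 hx, fun h3 => absurd h3 h⟩
  obtain ⟨a, u, ha, H⟩ := exists_match hG
  have hle : ∀ x y : ℕ → Bool,
      (∀ N, ∃ i ≥ N, ∀ n ∈ Set.Ico (a i) (a (i + 1)), x n = u i n) →
      (∀ N, ∃ i ≥ N, ∀ n ∈ Set.Ico (a i) (a (i + 1)), y n = u i n) →
      μ {n | y n = true} ≤ μ {n | x n = true} := by
    intro x y hx hy
    by_contra hlt
    push Not at hlt
    obtain ⟨r, hr1, hr2⟩ := exists_rat_btwn hlt
    have h2 := Set.mem_iInter.1 (H x hx) r
    have h3 := Set.mem_iInter.1 (H y hy) r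
    have h4 : y ∈ Above μ r := hr2
    have h5 : (r : ℝ) < μ {n | x n = true} := h2.2 (h3.1 h4)
    linarith
  have hpat : ∀ m j, j < m → ∀ N, ∃ i ≥ N, ∀ n ∈ Set.Ico (a i) (a (i + 1)),
      pat a u m j n = u i n := by
    intro m j hj N
    refine ⟨m * N + j, ?_, fun n hn => pat_match ha u ?_ hn⟩
    · have : N ≤ m * N := Nat.le_mul_of_pos_left N (by omega)
      omega
    · rw [Nat.mul_add_mod]
      exact Nat.mod_eq_of_lt hj
  -- the complementary real
  let x : ℕ → Bool := fun n => decide (∃ i, n ∈ Set.Ico (a i) (a (i + 1)) ∧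
    ((i % 2 = 0 ∧ u i n = true) ∨ (i % 2 = 1 ∧ u i n = false)))
  have hx : ∀ i n, n ∈ Set.Ico (a i) (a (i + 1)) →
      (x n = true ↔ ((i % 2 = 0 ∧ u i n = true) ∨ (i % 2 = 1 ∧ u i n = false))) := by
    intro i n hn
    simp only [x, decide_eq_true_eq]
    constructor
    · rintro ⟨k, hk, h⟩
      rwa [block_unique' ha hk hn] at h
    · exact fun h => ⟨i, hn, h⟩
  have hx1 : ∀ N, ∃ i ≥ N, ∀ n ∈ Set.Ico (a i) (a (i + 1)), x n = u i n := by
    intro N
    refine ⟨2 * N, by omega, fun n hn => ?_⟩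
    have h2 := hx (2 * N) n hn
    have h3 : (2 * N) % 2 = 0 := by omega
    rw [h3] at h2
    cases h4 : u (2 * N) n <;> cases h5 : x n <;> simp_all
  have hx2 : ∀ N, ∃ i ≥ N, ∀ n ∈ Set.Ico (a i) (a (i + 1)), (!x n) = u i n := by
    intro N
    refine ⟨2 * N + 1, by omega, fun n hn => ?_⟩
    have h2 := hx (2 * N + 1) n hn
    have h3 : (2 * N + 1) % 2 = 1 := by omega
    rw [h3] at h2
    cases h4 : u (2 * N + 1) n <;> cases h5 : x n <;> simp_all
  have hsum : μ {n | x n = true} + μ {n | (!x n) = true} = 1 := by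
    rw [← h1, ← hadd]
    · congr 1
      ext n
      cases h : x n <;> simp [h]
    · rw [Set.disjoint_left]
      intro n hn hn'
      simp only [Set.mem_ofPred_eq] at hn hn'
      rw [hn] at hn'
      simp at hn'
  have e1 := hle _ _ hx1 hx2
  have e2 := hle _ _ hx2 hx1
  have k0 := hle _ _ (hpat 3 0 (by norm_num)) hx1
  have k1 := hle _ _ (hpat 3 1 (by norm_num)) hx1
  have k2 := hle _ _ (hpat 3 2 (by norm_num)) hx1
  have d01 := hadd _ _ (pat_disjoint ha u (m := 3) (j := 0) (k := 1) (by norm_num))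
  have d012 := hadd ({n | pat a u 3 0 n = true} ∪ {n | pat a u 3 1 n = true})
    {n | pat a u 3 2 n = true} (Disjoint.union_left
      (pat_disjoint ha u (by norm_num)) (pat_disjoint ha u (by norm_num)))
  have htot := mu_mono h0 hadd (Set.subset_univ
    (({n | pat a u 3 0 n = true} ∪ {n | pat a u 3 1 n = true}) ∪ {n | pat a u 3 2 n = true}))
  rw [h1, d012, d01] at htot
  linarith

end Pool.Agent.Helper56MB
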