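import Mathlib
import Pool.Agent.Helper56_MB.Defs
import Pool.Agent.Helper56_TB.Filters

/-!
# A sequence of elements of a set that is nonmeager in every open set
-/

set_option autoImplicit false

namespace Pool.Agent.Helper56MB

open Pool.Agent.Helper25TD Pool.Agent.Helper56TB Topology

/-- `x`, as the row number `n`, matches `u` on the `i`-th block -/
def RowMatch (a : ℕ → ℕ) (u : ℕ → ℕ → Bool) (n i : ℕ) (x : ℕ → Bool) : Prop :=
  ∀ l, Nat.pair n l ∈ Set.Ico (a i) (a (i + 1)) → x l = u i (Nat.pair n l)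

/-- nonmeager in every nonempty open set -/
def Everywhere (A : Set (ℕ → Bool)) : Prop :=
  ∀ O : Set (ℕ → Bool), IsOpen O → O.Nonempty → ¬ IsMeagre (A ∩ O)

theorem Everywhere.exists_mem {A : Set (ℕ → Bool)} (hA : Everywhere A) {O R : Set (ℕ → Bool)}
    (hO : IsOpen O) (hne : O.Nonempty) (hR : R ∈ residual (ℕ → Bool)) :
    ∃ x ∈ A, x ∈ O ∧ x ∈ R := by
  by_contra hcon
  push Not at hcon
  refine hA O hO hne ?_
  have h1 : IsMeagre Rᶜ := by
    change Rᶜᶜ ∈ residual (ℕ → Bool)
    rwa [compl_compl]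
  exact h1.mono fun x hx => hcon x hx.1 hx.2

theorem isOpen_rowMatch {a : ℕ → ℕ} (u : ℕ → ℕ → Bool) (n i : ℕ) :
    IsOpen {x : ℕ → Bool | RowMatch a u n i x} := by
  have h1 : {x : ℕ → Bool | RowMatch a u n i x} =
      ⋂ l ∈ Finset.range (a (i + 1)), {x : ℕ → Bool |
        Nat.pair n l ∈ Set.Ico (a i) (a (i + 1)) → x l = u i (Nat.pair n l)} := by
    ext x
    simp only [Set.mem_ofPred_eq, Set.mem_iInter, Finset.mem_range]
    constructor
    · exact fun h l _ => h l
    · intro h l hl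
      refine h l ?_ hl
      exact (Nat.right_le_pair n l).trans_lt (Set.mem_Ico.1 hl).2
  rw [h1]
  refine isOpen_biInter_finset fun l _ => ?_
  by_cases h : Nat.pair n l ∈ Set.Ico (a i) (a (i + 1))
  · simp only [h, forall_true_left]
    exact (isOpen_discrete {u i (Nat.pair n l)}).preimage
      (continuous_apply l : Continuous fun x : ℕ → Bool => x l)
  · simp [h]

theorem block_unique {a : ℕ → ℕ} (ha : StrictMono a) {i j n : ℕ}
    (hi : n ∈ Set.Ico (a i) (a (i + 1))) (hj : n ∈ Set.Ico (a j) (a (j + 1))) : i = j := by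
  rw [Set.mem_Ico] at hi hj
  rcases lt_trichotomy i j with h4 | h4 | h4
  · have := ha.monotone (Nat.succ_le_of_lt h4)
    simp only [Nat.succ_eq_add_one] at this
    omega
  · exact h4
  · have := ha.monotone (Nat.succ_le_of_lt h4)
    simp only [Nat.succ_eq_add_one] at this
    omega

theorem exists_rowMatch {a : ℕ → ℕ} (ha : StrictMono a) (u : ℕ → ℕ → Bool) (n : ℕ) :
    ∃ x : ℕ → Bool, ∀ i, RowMatch a u n i x := by
  classical
  refine ⟨fun l => decide (∃ i, Nat.pair n l ∈ Set.Ico (a i) (a (i + 1)) ∧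
    u i (Nat.pair n l) = true), fun i l hl => ?_⟩
  cases h : u i (Nat.pair n l) with
  | true => exact decide_eq_true ⟨i, hl, h⟩
  | false =>
    refine decide_eq_false ?_
    rintro ⟨j, hj, hj'⟩
    rw [block_unique ha hj hl, h] at hj'
    exact absurd hj' (by simp)

theorem residual_rowMatch {a : ℕ → ℕ} (ha : StrictMono a) (u : ℕ → ℕ → Bool) (n : ℕ)
    {I : Set ℕ} (hI : I.Infinite) :
    {x : ℕ → Bool | {i ∈ I | RowMatch a u n i x}.Infinite} ∈ residual (ℕ → Bool) := by
  have h1 : (⋂ N : ℕ, {x : ℕ → Bool | ∃ i ∈ I, N < i ∧ RowMatch a u n i x}) ∈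
      residual (ℕ → Bool) := by
    refine countable_iInter_mem.2 fun N => ?_
    refine residual_of_dense_open ?_ ?_
    · have : {x : ℕ → Bool | ∃ i ∈ I, N < i ∧ RowMatch a u n i x} =
          ⋃ i ∈ {i | i ∈ I ∧ N < i}, {x : ℕ → Bool | RowMatch a u n i x} := by
        ext x
        simp [and_assoc]
      rw [this]
      exact isOpen_biUnion fun i _ => isOpen_rowMatch u n i
    · rw [dense_iff_inter_open]
      rintro O hO ⟨z, hz⟩
      obtain ⟨k, hk⟩ := exists_cyl hO hz
      obtain ⟨i, hi, hi'⟩ := hI.exists_gt (max N (Nat.pair n k))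
      obtain ⟨x0, hx0⟩ := exists_rowMatch ha u n
      refine ⟨fun l => if l < k then z l else x0 l, hk _ fun j hj => if_pos hj, i, hi,
        (le_max_left _ _).trans_lt hi', fun l hl => ?_⟩
      have h2 : Nat.pair n k < a i :=
        ((le_max_right N _).trans_lt hi').trans_le ha.le_apply
      have h3 : ¬ l < k := fun h => by
        have h4 : Nat.pair n l < Nat.pair n k := Nat.pair_lt_pair_right n h
        rw [Set.mem_Ico] at hl
        omega
      simp only [h3, if_false]
      exact hx0 i l hl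
  refine Filter.mem_of_superset h1 fun x hx => ?_
  refine Set.infinite_of_forall_exists_gt fun N => ?_
  obtain ⟨i, hi, hN, hm⟩ := Set.mem_iInter.1 hx N
  exact ⟨i, ⟨hi, hm⟩, hN⟩

/-- A comeager set contains an element all of whose rows belong to `A`. -/
theorem Everywhere.exists_rows {A : Set (ℕ → Bool)} (hA : Everywhere A) {R : Set (ℕ → Bool)}
    (hR : R ∈ residual (ℕ → Bool)) : ∃ y ∈ R, ∀ n, row y n ∈ A := by
  classical
  obtain ⟨a, u, ha, H⟩ := exists_match hR
  have step : ∀ (n : ℕ) (σ : {σ : Set ℕ × Finset ℕ // σ.1.Infinite}),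
      ∃ (x : ℕ → Bool) (σ' : {σ : Set ℕ × Finset ℕ // σ.1.Infinite}), x ∈ A ∧
        (∀ i ∈ σ.1.2, RowMatch a u n i x) ∧ (∀ i ∈ σ'.1.1, RowMatch a u n i x) ∧
        σ'.1.1 ⊆ σ.1.1 ∧ ∃ i ∈ σ'.1.1, n < i ∧ σ'.1.2 = insert i σ.1.2 := by
    rintro n ⟨⟨I, F⟩, hI⟩
    dsimp only at hI ⊢
    obtain ⟨x0, hx0⟩ := exists_rowMatch ha u n
    obtain ⟨x, hxA, hxO, hxR⟩ := hA.exists_mem
      (O := ⋂ i ∈ F, {x : ℕ → Bool | RowMatch a u n i x})
      (isOpen_biInter_finset fun i _ => isOpen_rowMatch u n i)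
      ⟨x0, by simpa using fun i _ => hx0 i⟩ (residual_rowMatch ha u n hI)
    obtain ⟨i, hi, hni⟩ := Set.Infinite.exists_gt hxR n
    refine ⟨x, ⟨({i ∈ I | RowMatch a u n i x}, insert i F), hxR⟩, hxA, ?_, ?_, ?_, i, hi, hni, rfl⟩
    · simpa using hxO
    · exact fun i hi => hi.2
    · exact fun i hi => hi.1
  choose X S hXA hX1 hX2 hX3 hX4 using step
  let st : ℕ → {σ : Set ℕ × Finset ℕ // σ.1.Infinite} :=
    fun n => Nat.rec ⟨(Set.univ, ∅), Set.infinite_univ⟩ (fun n σ => S n σ) n
  have hst : ∀ n, st (n + 1) = S n (st n) := fun n => rfl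
  have hanti : ∀ m n, m ≤ n → (st n).1.1 ⊆ (st m).1.1 := by
    intro m n h
    induction h with
    | refl => exact subset_rfl
    | step _ ih => exact (hX3 _ _).trans ih
  have hmono : ∀ m n, m ≤ n → (st m).1.2 ⊆ (st n).1.2 := by
    intro m n h
    induction h with
    | refl => exact subset_rfl
    | @step n' _ ih =>
      obtain ⟨i, _, _, h3⟩ := hX4 n' (st n')
      refine ih.trans ?_
      rw [Nat.succ_eq_add_one, hst, h3]
      exact Finset.subset_insert _ _
  choose ι h1 h2 h3 using fun n => hX4 n (st n)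
  refine ⟨jn fun n => X n (st n), H _ fun N => ⟨ι N, (h2 N).le, fun p hp => ?_⟩, fun n => ?_⟩
  · have key : ∀ n, RowMatch a u n (ι N) (X n (st n)) := by
      intro n
      rcases Nat.lt_or_ge N n with h | h
      · refine hX1 n (st n) _ (hmono (N + 1) n h ?_)
        rw [hst, h3 N]
        exact Finset.mem_insert_self _ _
      · refine hX2 n (st n) _ ?_
        have := hanti (n + 1) (N + 1) (by omega)
        rw [hst, hst] at this
        exact this (h1 N)
    have h4 := key p.unpair.1 p.unpair.2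
    rw [Nat.pair_unpair] at h4
    exact h4 hp
  · rw [row_jn]
    exact hXA n _

end Pool.Agent.Helper56MB
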