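import Mathlib
import Pool.Agent.Helper56_MB.Rows

/-!
# Upward closed sets have the Baire property if certain games are determined
-/

set_option autoImplicit false

namespace Pool.Agent.Helper56MB

open Pool.Agent.Helper25TD Pool.Agent.Helper56TB Topology

theorem cat_mono (s : List Bool) {x y : ℕ → Bool} (h : x ≤ y) : cat s x ≤ cat s y := by
  intro n
  unfold cat
  split_ifs
  · exact le_rfl
  · exact h _

theorem le_of_imp {b c : Bool} (h : b = true → c = true) : b ≤ c := by
  cases b <;> cases c <;> simp_all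

theorem hull_limit {B : Set (ℕ → Bool)} (hB : IsUpperSet B) (s : List Bool) :
    Hull (Limit B s) = Limit B s := by
  ext y
  constructor
  · rintro ⟨x, ⟨N, hN⟩, M, hM⟩
    refine ⟨max N M, fun n hn => hB (cat_mono s fun l => ?_) (hN n ((le_max_left _ _).trans hn))⟩
    refine le_of_imp fun h => hM _ ?_ h
    exact ((le_max_right _ _).trans hn).trans (Nat.left_le_pair n l)
  · exact fun hy => ⟨y, hy, 0, fun _ _ h => h⟩

/-! ### cylinders -/

/-- the set of all extensions of `s` -/
def cyl (s : List Bool) : Set (ℕ → Bool) := {x | ∀ n < s.length, x n = s.getD n false}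

theorem isOpen_cyl' (s : List Bool) : IsOpen (cyl s) := by
  have h1 : cyl s = {x | ∀ n < s.length, x n = (fun n => s.getD n false) n} := rfl
  rw [h1]
  exact isOpen_cyl _ _

theorem mem_cyl_pre (x : ℕ → Bool) (n : ℕ) : x ∈ cyl (pre x n) := by
  intro i hi
  rw [Pool.Agent.Helper56TB.length_pre] at hi
  simp [List.getD_eq_getElem?_getD, Pool.Agent.Helper56TB.getElem?_pre x hi]

theorem cyl_pre_subset (x : ℕ → Bool) (n : ℕ) : cyl (pre x n) ⊆ {y | ∀ j < n, y j = x j} := by
  intro y hy j hj
  have h1 := hy j (by rw [Pool.Agent.Helper56TB.length_pre]; exact hj)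
  rw [h1]
  simp [List.getD_eq_getElem?_getD, Pool.Agent.Helper56TB.getElem?_pre x hj]

/-- the shift that forgets the first `k` values -/
def shift (k : ℕ) (x : ℕ → Bool) : ℕ → Bool := fun n => x (n + k)

theorem continuous_shift (k : ℕ) : Continuous (shift k) :=
  continuous_pi fun n => continuous_apply (n + k)

theorem shift_cat (s : List Bool) (x : ℕ → Bool) : shift s.length (cat s x) = x := by
  funext n
  have : ¬ n + s.length < s.length := by omega
  simp [shift, cat, this]

theorem cat_shift {s : List Bool} {x : ℕ → Bool} (h : x ∈ cyl s) :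
    cat s (shift s.length x) = x := by
  funext n
  unfold cat shift
  split_ifs with h1
  · exact (h n h1).symm
  · congr 1
    omega

theorem cat_mem_cyl (s : List Bool) (x : ℕ → Bool) : cat s x ∈ cyl s := fun _ hn => if_pos hn

theorem isOpenMap_shift (k : ℕ) : IsOpenMap (shift k) := by
  intro O hO
  rw [isOpen_iff_forall_mem_open]
  rintro _ ⟨x, hx, rfl⟩
  obtain ⟨m, hm⟩ := exists_cyl hO hx
  refine ⟨{y | ∀ j < m, y j = shift k x j}, ?_, isOpen_cyl _ _, fun _ _ => rfl⟩
  intro y hy
  refine ⟨fun n => if n < k then x n else y (n - k), hm _ fun j hj => ?_, ?_⟩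
  · by_cases h : j < k
    · simp [h]
    · have h1 := hy (j - k) (by omega)
      simp only [h, if_false]
      rw [h1]
      unfold shift
      congr 1
      omega
  · funext n
    have : ¬ n + k < k := by omega
    simp [shift, this]

theorem continuous_cat (s : List Bool) : Continuous (cat s) := by
  refine continuous_pi fun n => ?_
  unfold cat
  split_ifs
  · exact continuous_const
  · exact continuous_apply _

/-- a set is meager in the cylinder of `s` if its section is meager -/
theorem isMeagre_inter_cyl {B : Set (ℕ → Bool)} {s : List Bool}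
    (h : IsMeagre {x | cat s x ∈ B}) : IsMeagre (B ∩ cyl s) := by
  have h1 : IsMeagre (shift s.length ⁻¹' {x | cat s x ∈ B}) :=
    tendsto_residual_of_isOpenMap (continuous_shift _) (isOpenMap_shift _) h
  refine h1.mono ?_
  rintro x ⟨hx, hxs⟩
  change cat s (shift s.length x) ∈ B
  rwa [cat_shift hxs]

theorem shift_add_cat {s : List Bool} (k : ℕ) (x : ℕ → Bool) :
    shift (s.length + k) (cat s x) = shift k x := by
  funext n
  have h1 : ¬ n + (s.length + k) < s.length := by omega
  have h2 : n + (s.length + k) - s.length = n + k := by omega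
  simp [shift, cat, h1, h2]

/-- if the set is meager in some open subset of the section, then it is meager in some smaller
cylinder -/
theorem exists_cyl_of_meagre {B : Set (ℕ → Bool)} {s : List Bool} {O : Set (ℕ → Bool)}
    (hO : IsOpen O) (hne : O.Nonempty) (h : IsMeagre ({x | cat s x ∈ B} ∩ O)) :
    ∃ t, cyl t ⊆ cyl s ∧ IsMeagre (B ∩ cyl t) := by
  obtain ⟨z, hz⟩ := hne
  obtain ⟨m, hm⟩ := exists_cyl hO hz
  refine ⟨pre (cat s z) (s.length + m), fun x hx n hn => ?_, ?_⟩
  · have h1 := cyl_pre_subset _ _ hx n (by omega)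
    rw [h1]
    exact cat_mem_cyl s z n hn
  · have h1 : IsMeagre (shift s.length ⁻¹' ({x | cat s x ∈ B} ∩ O)) :=
      tendsto_residual_of_isOpenMap (continuous_shift _) (isOpenMap_shift _) h
    refine h1.mono ?_
    rintro x ⟨hx, hxs⟩
    have h2 := cyl_pre_subset _ _ hxs
    have h3 : x ∈ cyl s := fun n hn => by
      rw [h2 n (by omega)]
      exact cat_mem_cyl s z n hn
    refine ⟨?_, hm _ fun j hj => ?_⟩
    · change cat s (shift s.length x) ∈ B
      rwa [cat_shift h3]
    · unfold shift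
      rw [h2 (j + s.length) (by omega)]
      have h4 : ¬ j + s.length < s.length := by omega
      simp [cat, h4]

theorem isMeagre_inter_biUnion (B : Set (ℕ → Bool)) (S : Set (List Bool))
    (h : ∀ t ∈ S, IsMeagre (B ∩ cyl t)) : IsMeagre (B ∩ ⋃ t ∈ S, cyl t) := by
  have h1 : IsMeagre (⋃ t : S, B ∩ cyl t.1) := isMeagre_iUnion fun t => h t.1 t.2
  refine h1.mono ?_
  rintro x ⟨hx, hx0⟩
  obtain ⟨t, ht, hxt⟩ := Set.mem_iUnion₂.1 hx0
  exact Set.mem_iUnion.2 ⟨⟨t, ht⟩, hx, hxt⟩

/-- A set without the Baire property has a section that, with its complement, is nonmeager in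
every open set. -/
theorem exists_section {B : Set (ℕ → Bool)} (hB : ¬ BaireMeasurableSet B) :
    ∃ s : List Bool, Everywhere {x | cat s x ∈ B} ∧ Everywhere {x | cat s x ∉ B} := by
  by_contra hcon
  push Not at hcon
  refine hB ?_
  have key : ∀ s : List Bool, ∃ t, cyl t ⊆ cyl s ∧
      (IsMeagre (B ∩ cyl t) ∨ IsMeagre (Bᶜ ∩ cyl t)) := by
    intro s
    by_cases h : Everywhere {x | cat s x ∈ B}
    · have h1 := hcon s h
      unfold Everywhere at h1
      push Not at h1
      obtain ⟨O, hO, hne, h2⟩ := h1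
      obtain ⟨t, ht, h3⟩ := exists_cyl_of_meagre (B := Bᶜ) hO hne h2
      exact ⟨t, ht, Or.inr h3⟩
    · unfold Everywhere at h
      push Not at h
      obtain ⟨O, hO, hne, h2⟩ := h
      obtain ⟨t, ht, h3⟩ := exists_cyl_of_meagre hO hne h2
      exact ⟨t, ht, Or.inl h3⟩
  let V0 : Set (ℕ → Bool) := ⋃ t ∈ {t | IsMeagre (B ∩ cyl t)}, cyl t
  let V1 : Set (ℕ → Bool) := ⋃ t ∈ {t | IsMeagre (Bᶜ ∩ cyl t)}, cyl t
  have hV0 : IsOpen V0 := isOpen_biUnion fun t _ => isOpen_cyl' t
  have hV1 : IsOpen V1 := isOpen_biUnion fun t _ => isOpen_cyl' t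
  have hm0 : IsMeagre (B ∩ V0) := isMeagre_inter_biUnion B _ fun t ht => ht
  have hm1 : IsMeagre (Bᶜ ∩ V1) := isMeagre_inter_biUnion Bᶜ _ fun t ht => ht
  have hdense : Dense (V0 ∪ V1) := by
    rw [dense_iff_inter_open]
    rintro O hO ⟨z, hz⟩
    obtain ⟨m, hm⟩ := exists_cyl hO hz
    obtain ⟨t, ht, h⟩ := key (pre z m)
    obtain ⟨x, hx⟩ : (cyl t).Nonempty := ⟨_, cat_mem_cyl t z⟩
    refine ⟨x, hm _ (cyl_pre_subset _ _ (ht hx)), ?_⟩
    rcases h with h | h
    · exact Or.inl (Set.mem_biUnion (x := t) h hx)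
    · exact Or.inr (Set.mem_biUnion (x := t) h hx)
  have hres : V0 ∪ V1 ∈ residual (ℕ → Bool) :=
    residual_of_dense_open (hV0.union hV1) hdense
  have heq : B =ᶠ[residual (ℕ → Bool)] V1 := by
    rw [Filter.eventuallyEq_set]
    have h0 : (B ∩ V0)ᶜ ∈ residual (ℕ → Bool) := hm0
    have h1 : (Bᶜ ∩ V1)ᶜ ∈ residual (ℕ → Bool) := hm1
    filter_upwards [h0, h1, hres] with x k0 k1 k2
    constructor
    · intro hx
      rcases k2 with k2 | k2
      · exact absurd ⟨hx, k2⟩ k0
      · exact k2
    · intro hx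
      by_contra hxB
      exact k1 ⟨hxB, hx⟩
  exact (hV1.baireMeasurableSet).congr heq.symm

/-- **Upward closed sets.** -/
theorem baire_of_determined {B : Set (ℕ → Bool)} (hB : IsUpperSet B)
    (h : ∀ s, WinsI (Clocked (Limit B s)) ∨ WinsII (Clocked (Limit B s))) :
    BaireMeasurableSet B := by
  by_contra hcon
  obtain ⟨s, h1, h2⟩ := exists_section hcon
  rcases h s with h3 | h3
  · rw [winsI_iff, hull_limit hB] at h3
    obtain ⟨y, ⟨N, hN⟩, hy⟩ := h2.exists_rows h3
    exact hy N (hN N le_rfl)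
  · rw [winsII_iff, hull_limit hB] at h3
    obtain ⟨y, hy1, hy⟩ := h1.exists_rows h3
    exact hy1 ⟨0, fun n _ => hy n⟩

end Pool.Agent.Helper56MB
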