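import Mathlib
import Pool.Agent.Helper56_MB.Monotone

/-!
# The converse: if the set has the Baire property, the games are determined
-/

set_option autoImplicit false

namespace Pool.Agent.Helper56MB

open Pool.Agent.Helper25TD Pool.Agent.Helper56TB Topology

theorem isOpenMap_cat (s : List Bool) : IsOpenMap (cat s) := by
  intro O hO
  have h1 : cat s '' O = cyl s ∩ shift s.length ⁻¹' O := by
    ext x
    constructor
    · rintro ⟨y, hy, rfl⟩
      refine ⟨cat_mem_cyl s y, ?_⟩
      change shift s.length (cat s y) ∈ O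
      rwa [shift_cat]
    · rintro ⟨h1, h2⟩
      exact ⟨shift s.length x, h2, cat_shift h1⟩
  rw [h1]
  exact (isOpen_cyl' s).inter (hO.preimage (continuous_shift _))

theorem continuous_row (n : ℕ) : Continuous fun y : ℕ → Bool => row y n :=
  continuous_pi fun l => continuous_apply (Nat.pair n l)

theorem isOpenMap_row (n : ℕ) : IsOpenMap fun y : ℕ → Bool => row y n := by
  classical
  intro O hO
  rw [isOpen_iff_forall_mem_open]
  rintro _ ⟨y, hy, rfl⟩
  obtain ⟨m, hm⟩ := exists_cyl hO hy
  refine ⟨{x | ∀ j < m, x j = row y n j}, ?_, isOpen_cyl _ _, fun _ _ => rfl⟩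
  intro x hx
  refine ⟨fun p => if p.unpair.1 = n then x p.unpair.2 else y p, hm _ fun p hp => ?_, ?_⟩
  · by_cases h : p.unpair.1 = n
    · simp only [h, if_true]
      rw [hx _ ((Nat.unpair_right_le p).trans_lt hp)]
      unfold row
      rw [← h, Nat.pair_unpair]
    · simp [h]
  · funext l
    simp [row]

theorem exists_row_mem {O : Set (ℕ → Bool)} (hO : IsOpen O) (hne : O.Nonempty) (N : ℕ) :
    {y : ℕ → Bool | ∃ n ≥ N, row y n ∈ O} ∈ residual (ℕ → Bool) := by
  classical
  refine residual_of_dense_open ?_ ?_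
  · have : {y : ℕ → Bool | ∃ n ≥ N, row y n ∈ O} =
        ⋃ n, ⋃ (_ : n ≥ N), (fun y => row y n) ⁻¹' O := by
      ext y
      simp
    rw [this]
    exact isOpen_iUnion fun n => isOpen_iUnion fun _ => hO.preimage (continuous_row n)
  · rw [dense_iff_inter_open]
    rintro O' hO' ⟨z, hz⟩
    obtain ⟨k, hk⟩ := exists_cyl hO' hz
    obtain ⟨w, hw⟩ := hne
    let n := max N k
    refine ⟨fun p => if p.unpair.1 = n then w p.unpair.2 else z p, hk _ fun j hj => ?_,
      n, le_max_left _ _, ?_⟩
    · have h1 : j.unpair.1 ≠ n := by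
        have h2 := Nat.unpair_left_le j
        have h3 : k ≤ n := le_max_right _ _
        omega
      simp [h1]
    · have : row (fun p => if p.unpair.1 = n then w p.unpair.2 else z p) n = w := by
        funext l
        simp [row]
      rw [this]
      exact hw

/-- the limit set of a set with the Baire property is comeager or meager -/
theorem limit_zero_one {B : Set (ℕ → Bool)} (hB : BaireMeasurableSet B) (s : List Bool) :
    Limit B s ∈ residual (ℕ → Bool) ∨ IsMeagre (Limit B s) := by
  have hA : BaireMeasurableSet (cat s ⁻¹' B) := hB.preimage (continuous_cat s) (isOpenMap_cat s)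
  obtain ⟨V, hV, hAV⟩ := hA.residualEq_isOpen
  have hR : {x | cat s x ∈ B ↔ x ∈ V} ∈ residual (ℕ → Bool) := by
    filter_upwards [Filter.eventuallyEq_set.1 hAV] with x hx using hx
  have hrow : ∀ {T : Set (ℕ → Bool)}, T ∈ residual (ℕ → Bool) →
      (⋂ n, {y : ℕ → Bool | row y n ∈ T}) ∈ residual (ℕ → Bool) := fun {T} hT =>
    countable_iInter_mem.2 fun n =>
      tendsto_residual_of_isOpenMap (continuous_row n) (isOpenMap_row n) hT
  by_cases hd : Dense V
  · left
    have h1 := hrow (Filter.inter_mem hR (residual_of_dense_open hV hd))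
    refine Filter.mem_of_superset h1 fun y hy => ⟨0, fun n _ => ?_⟩
    have h2 := Set.mem_iInter.1 hy n
    exact h2.1.2 h2.2
  · right
    rw [dense_iff_inter_open] at hd
    push Not at hd
    obtain ⟨O, hO, hne, hOV⟩ := hd
    have h1 : (⋂ N, {y : ℕ → Bool | ∃ n ≥ N, row y n ∈ O}) ∈ residual (ℕ → Bool) :=
      countable_iInter_mem.2 fun N => exists_row_mem hO hne N
    have h2 := Filter.inter_mem (hrow hR) h1
    change (Limit B s)ᶜ ∈ residual (ℕ → Bool)
    refine Filter.mem_of_superset h2 ?_
    rintro y ⟨hy1, hy2⟩ ⟨N, hN⟩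
    obtain ⟨n, hn, hnO⟩ := Set.mem_iInter.1 hy2 N
    have h3 : row y n ∈ V := (Set.mem_iInter.1 hy1 n).1 (hN n hn)
    have h4 : row y n ∈ O ∩ V := ⟨hnO, h3⟩
    rw [hOV] at h4
    exact h4

/-- **The equivalence.** -/
theorem determined_iff_baire {B : Set (ℕ → Bool)} (hB : IsUpperSet B) :
    (∀ s, WinsI (Clocked (Limit B s)) ∨ WinsII (Clocked (Limit B s))) ↔
      BaireMeasurableSet B := by
  refine ⟨baire_of_determined hB, fun h s => ?_⟩
  rw [winsI_iff, winsII_iff, hull_limit hB]
  exact limit_zero_one h s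

end Pool.Agent.Helper56MB
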