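import Mathlib
import Pool.Agent.Helper56_MB.Defs
import Pool.Agent.Helper56_TB.Filters

/-!
# Maps into the set of all bounded sets of functions
-/

set_option autoImplicit false

namespace Pool.Agent.Helper56MB

open Pool.Agent.Helper25TD Pool.Agent.Helper56TB Topology

theorem hull_pairs (f : (ℕ → ℕ) → Set (ℕ → ℕ)) : Hull (Pairs f) = Pairs f := by
  ext y
  constructor
  · rintro ⟨x, hx, M, hM⟩ g ⟨N, hN⟩
    obtain ⟨k, hk, N1, hN1⟩ := hx g ⟨max N M, fun n hn => by
      obtain ⟨m, h1, h2, h3⟩ := hN n ((le_max_left _ _).trans hn)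
      refine ⟨m, h1, h2, ?_⟩
      by_contra h4
      rw [Bool.not_eq_false] at h4
      have h5 := hM (2 * m) (by
        have := (le_max_right N M).trans hn
        omega) h4
      rw [h3] at h5
      exact absurd h5 (by simp)⟩
    refine ⟨k, hk, max N1 M, fun n hn => ?_⟩
    obtain ⟨m, h1, h2, h3⟩ := hN1 n ((le_max_left _ _).trans hn)
    refine ⟨m, h1, h2, hM _ ?_ h3⟩
    have := (le_max_right N1 M).trans hn
    omega
  · exact fun hy => ⟨y, hy, 0, fun _ _ h => h⟩

/-- a sparse sequence of indices -/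
def sparse (F : ℕ → ℕ) : ℕ → ℕ := fun j => Nat.rec 0 (fun _ i => i + 1 + F i) j

theorem sparse_succ (F : ℕ → ℕ) (j : ℕ) : sparse F (j + 1) = sparse F j + 1 + F (sparse F j) :=
  rfl

theorem sparse_strictMono (F : ℕ → ℕ) : StrictMono (sparse F) :=
  strictMono_nat_of_lt_succ fun j => by
    rw [sparse_succ]
    omega

theorem not_between (F : ℕ → ℕ) {l j : ℕ} (h1 : sparse F l < sparse F j)
    (h2 : sparse F j < sparse F (l + 1)) : False := by
  have h3 := (sparse_strictMono F).lt_iff_lt.1 h1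
  have h4 := (sparse_strictMono F).lt_iff_lt.1 h2
  omega

theorem not_winsI_pairs {f : (ℕ → ℕ) → Set (ℕ → ℕ)} (hf : ∀ g, Bdd (f g)) :
    ¬ WinsI (Clocked (Pairs f)) := by
  intro h
  obtain ⟨a, ha, hL⟩ := large_of_winsI h
  let g0 : ℕ → ℕ := fun n => a (2 * n + 3) + n
  obtain ⟨k0, hk0⟩ := hf g0
  let F : ℕ → ℕ := fun i => 2 * k0 (a (i + 1)) + 4
  let A : Set ℕ := Set.range (sparse F)
  have hA : A.Infinite := Set.infinite_range_of_injective (sparse_strictMono F).injective
  obtain ⟨x, hx, N, hN⟩ := hL A hA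
  have hblock : ∀ n, n ∈ (⋃ i ∈ A, Set.Ico (a i) (a (i + 1))) ↔
      ∃ l, n ∈ Set.Ico (a (sparse F l)) (a (sparse F l + 1)) := by
    intro n
    simp only [A, Set.mem_iUnion]
    constructor
    · rintro ⟨_, ⟨l, rfl⟩, h⟩
      exact ⟨l, h⟩
    · rintro ⟨l, h⟩
      exact ⟨_, ⟨l, rfl⟩, h⟩
  have hfree : ∀ l n, a (sparse F l + 1) ≤ n → n < a (sparse F (l + 1)) →
      n ∉ (⋃ i ∈ A, Set.Ico (a i) (a (i + 1))) := by
    intro l n h1 h2 h3
    obtain ⟨j, hj⟩ := (hblock n).1 h3
    rw [Set.mem_Ico] at hj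
    have h4 : sparse F l + 1 < sparse F j + 1 := ha.lt_iff_lt.1 (h1.trans_lt hj.2)
    have h5 : sparse F j < sparse F (l + 1) := ha.lt_iff_lt.1 (hj.1.trans_lt h2)
    exact not_between F (by omega) h5
  obtain ⟨k, hk, N1, hN1⟩ := hx g0 ⟨N, fun n hn => by
    by_cases h1 : 2 * n ∈ (⋃ i ∈ A, Set.Ico (a i) (a (i + 1)))
    · obtain ⟨l, hl⟩ := (hblock _).1 h1
      rw [Set.mem_Ico] at hl
      have h2 : a (sparse F l + 1) + 2 ≤ a (sparse F l + 3) := by
        have e1 := ha (show sparse F l + 1 < sparse F l + 2 by omega)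
        have e2 := ha (show sparse F l + 2 < sparse F l + 3 by omega)
        omega
      have h3 : a (sparse F l + 3) ≤ a (sparse F (l + 1)) := by
        refine ha.monotone ?_
        rw [sparse_succ]
        simp only [F]
        omega
      have h4 : sparse F l ≤ 2 * n := ((ha.le_apply : sparse F l ≤ a (sparse F l))).trans hl.1
      have h5 : a (sparse F l + 3) ≤ a (2 * n + 3) := ha.monotone (by omega)
      refine ⟨(a (sparse F l + 1) + 1) / 2, by omega, by simp only [g0]; omega, ?_⟩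
      by_contra h6
      rw [Bool.not_eq_false] at h6
      exact hfree l _ (by omega) (by omega) (hN _ (by omega) h6)
    · refine ⟨n, le_rfl, by simp only [g0]; omega, ?_⟩
      by_contra h6
      rw [Bool.not_eq_false] at h6
      exact h1 (hN _ (by omega) h6)⟩
  obtain ⟨N2, hN2⟩ := hk0 k hk
  let l := N + N1 + N2
  have h1 : l ≤ a (sparse F l + 1) := by
    have e1 : l ≤ sparse F l := (sparse_strictMono F).le_apply
    have e2 : sparse F l + 1 ≤ a (sparse F l + 1) := ha.le_apply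
    omega
  obtain ⟨m, hm1, hm2, hm3⟩ := hN1 (a (sparse F l + 1)) (by omega)
  have h2 := hN2 (a (sparse F l + 1)) (by omega)
  have h3 : sparse F (l + 1) ≤ a (sparse F (l + 1)) := ha.le_apply
  have h4 := sparse_succ F l
  have h5 : F (sparse F l) = 2 * k0 (a (sparse F l + 1)) + 4 := rfl
  exact hfree l (2 * m + 1) (by omega) (by omega) (hN _ (by omega) hm3)

theorem freiling_of_winsII {f : (ℕ → ℕ) → Set (ℕ → ℕ)} (hf : ∀ g, Bdd (f g))
    (h : WinsII (Clocked (Pairs f))) : ∃ d, ∀ e, ∃ g, g ∉ f e ∧ d ∉ f g := by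
  classical
  obtain ⟨a, ha, hS⟩ := small_of_winsII h
  let d : ℕ → ℕ := fun n => a (8 * n + 4) / 2
  refine ⟨d, fun e => ?_⟩
  obtain ⟨ke, hke⟩ := hf e
  let F : ℕ → ℕ := fun j => 2 * ke (a (8 * j + 4)) + 4
  -- the real: even bits are zero exactly on the regions with sparse index
  let x : ℕ → Bool := fun p => decide (if p % 2 = 0 then
    ¬ ∃ l, p ∈ Set.Ico (a (8 * sparse F l)) (a (8 * sparse F l + 4))
    else ∃ j, p ∈ Set.Ico (a (8 * j + 4)) (a (8 * j + 8)))
  have hx0 : ∀ m, x (2 * m) = false ↔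
      ∃ l, 2 * m ∈ Set.Ico (a (8 * sparse F l)) (a (8 * sparse F l + 4)) := by
    intro m
    have h2 : (2 * m) % 2 = 0 := by omega
    simp only [x, h2, if_true, decide_eq_false_iff_not, not_not]
  have hx1 : ∀ m, x (2 * m + 1) = true ↔
      ∃ j, 2 * m + 1 ∈ Set.Ico (a (8 * j + 4)) (a (8 * j + 8)) := by
    intro m
    have h2 : ¬ (2 * m + 1) % 2 = 0 := by omega
    simp only [x, h2, if_false, decide_eq_true_eq]
  have hx : x ∉ Pairs f := by
    intro hxP
    obtain ⟨N, hN⟩ := hS x hxP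
    have h1 : N ≤ sparse F N := (sparse_strictMono F).le_apply
    obtain ⟨p, hp, hxp⟩ := hN (8 * sparse F N) (by omega)
    rw [Set.mem_Ico] at hp
    have h2 := ha.monotone (show 8 * sparse F N + 1 ≤ 8 * sparse F N + 4 by omega)
    rcases Nat.mod_two_eq_zero_or_one p with h3 | h3
    · have h4 : p = 2 * (p / 2) := by omega
      rw [h4] at hxp
      have h5 := (hx0 (p / 2)).2 ⟨N, by rw [Set.mem_Ico]; omega⟩
      rw [hxp] at h5
      exact absurd h5 (by simp)
    · have h4 : p = 2 * (p / 2) + 1 := by omega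
      rw [h4] at hxp
      obtain ⟨j, hj⟩ := (hx1 (p / 2)).1 hxp
      rw [Set.mem_Ico, ← h4] at hj
      have h5 : 8 * j + 4 < 8 * sparse F N + 1 := ha.lt_iff_lt.1 (hj.1.trans_lt hp.2)
      have h6 : 8 * sparse F N < 8 * j + 8 := ha.lt_iff_lt.1 (hp.1.trans_lt hj.2)
      omega
  unfold Pairs at hx
  simp only [Set.mem_ofPred_eq] at hx
  push Not at hx
  obtain ⟨g, ⟨N, hN⟩, hg⟩ := hx
  refine ⟨g, fun hge => ?_, fun hdg => ?_⟩
  · obtain ⟨N1, hN1⟩ := hke g hge
    let l := N + N1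
    have h0 : l ≤ sparse F l := (sparse_strictMono F).le_apply
    have h1 : 8 * sparse F l + 4 ≤ a (8 * sparse F l + 4) := ha.le_apply
    obtain ⟨m, hm1, hm2, hm3⟩ := hN (a (8 * sparse F l + 4)) (by omega)
    have h2 := hN1 (a (8 * sparse F l + 4)) (by omega)
    obtain ⟨j, hj⟩ := (hx0 m).1 hm3
    rw [Set.mem_Ico] at hj
    have h3 : 8 * sparse F l + 4 < 8 * sparse F j + 4 := ha.lt_iff_lt.1 (by omega)
    have h4 : 8 * sparse F j < 8 * sparse F (l + 1) := by
      refine ha.lt_iff_lt.1 (hj.1.trans_lt ?_)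
      have e1 : 8 * sparse F (l + 1) ≤ a (8 * sparse F (l + 1)) := ha.le_apply
      have e2 := sparse_succ F l
      have e3 : F (sparse F l) = 2 * ke (a (8 * sparse F l + 4)) + 4 := rfl
      omega
    exact not_between F (l := l) (j := j) (by omega) (by omega)
  · obtain ⟨n, hn, h1⟩ := hg d hdg 0
    have h2 : 8 * n + 4 ≤ a (8 * n + 4) := ha.le_apply
    have h3 : a (8 * n + 4) + 2 ≤ a (8 * n + 8) := by
      have e1 := ha (show 8 * n + 4 < 8 * n + 5 by omega)
      have e2 := ha (show 8 * n + 5 < 8 * n + 6 by omega)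
      have e3 := ha (show 8 * n + 6 < 8 * n + 8 by omega)
      omega
    have h4 := h1 (d n) (by simp only [d]; omega) le_rfl
    refine h4 ((hx1 _).2 ⟨n, ?_⟩)
    rw [Set.mem_Ico]
    simp only [d]
    omega

end Pool.Agent.Helper56MB
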